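import Mathlib

set_option autoImplicit false

namespace Pool.Agent.H948C

open TensorProduct

/-- The ring `k ⊕ V` with `V = k⁴` (matrices of size two) of square zero. -/
abbrev A : Type := TrivSqZeroExt ℚ (ℚ × ℚ × ℚ × ℚ)

/-- The module `ω`. -/
def Om : Type := ℚ × ℚ × ℚ × ℚ × ℚ

/-- The module `M`. -/
def Mo : Type := ℚ × ℚ × ℚ × ℚ

instance : AddCommGroup Om := inferInstanceAs (AddCommGroup (ℚ × ℚ × ℚ × ℚ × ℚ))
instance : AddCommGroup Mo := inferInstanceAs (AddCommGroup (ℚ × ℚ × ℚ × ℚ))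

def Om.mk (a b c d e : ℚ) : Om := (a, b, c, d, e)
def Mo.mk (a b c d : ℚ) : Mo := (a, b, c, d)

def Om.p11 (x : Om) : ℚ := Prod.fst (α := ℚ) (β := ℚ × ℚ × ℚ × ℚ) x
def Om.p12 (x : Om) : ℚ := (Prod.snd (α := ℚ) (β := ℚ × ℚ × ℚ × ℚ) x).1
def Om.p21 (x : Om) : ℚ := (Prod.snd (α := ℚ) (β := ℚ × ℚ × ℚ × ℚ) x).2.1
def Om.p22 (x : Om) : ℚ := (Prod.snd (α := ℚ) (β := ℚ × ℚ × ℚ × ℚ) x).2.2.1
def Om.c (x : Om) : ℚ := (Prod.snd (α := ℚ) (β := ℚ × ℚ × ℚ × ℚ) x).2.2.2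
def Mo.u1 (x : Mo) : ℚ := Prod.fst (α := ℚ) (β := ℚ × ℚ × ℚ) x
def Mo.u2 (x : Mo) : ℚ := (Prod.snd (α := ℚ) (β := ℚ × ℚ × ℚ) x).1
def Mo.w1 (x : Mo) : ℚ := (Prod.snd (α := ℚ) (β := ℚ × ℚ × ℚ) x).2.1
def Mo.w2 (x : Mo) : ℚ := (Prod.snd (α := ℚ) (β := ℚ × ℚ × ℚ) x).2.2

@[ext] lemma Om.ext {x y : Om} (h1 : x.p11 = y.p11) (h2 : x.p12 = y.p12) (h3 : x.p21 = y.p21) (h4 : x.p22 = y.p22)
    (h5 : x.c = y.c) : x = y :=
  Prod.ext (α := ℚ) (β := ℚ × ℚ × ℚ × ℚ) h1 (Prod.ext h2 (Prod.ext h3 (Prod.ext h4 h5)))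
@[ext] lemma Mo.ext {x y : Mo} (h1 : x.u1 = y.u1) (h2 : x.u2 = y.u2) (h3 : x.w1 = y.w1) (h4 : x.w2 = y.w2) : x = y :=
  Prod.ext (α := ℚ) (β := ℚ × ℚ × ℚ) h1 (Prod.ext h2 (Prod.ext h3 h4))

@[simp] lemma Om.mk_p11 (a b c d e : ℚ) : (Om.mk a b c d e).p11 = a := rfl
@[simp] lemma Om.mk_p12 (a b c d e : ℚ) : (Om.mk a b c d e).p12 = b := rfl
@[simp] lemma Om.mk_p21 (a b c d e : ℚ) : (Om.mk a b c d e).p21 = c := rfl
@[simp] lemma Om.mk_p22 (a b c d e : ℚ) : (Om.mk a b c d e).p22 = d := rfl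
@[simp] lemma Om.mk_c (a b c d e : ℚ) : (Om.mk a b c d e).c = e := rfl
@[simp] lemma Om.add_p11 (x y : Om) : (x + y).p11 = x.p11 + y.p11 := rfl
@[simp] lemma Om.add_p12 (x y : Om) : (x + y).p12 = x.p12 + y.p12 := rfl
@[simp] lemma Om.add_p21 (x y : Om) : (x + y).p21 = x.p21 + y.p21 := rfl
@[simp] lemma Om.add_p22 (x y : Om) : (x + y).p22 = x.p22 + y.p22 := rfl
@[simp] lemma Om.add_c (x y : Om) : (x + y).c = x.c + y.c := rfl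
@[simp] lemma Om.zero_p11 : (0 : Om).p11 = 0 := rfl
@[simp] lemma Om.zero_p12 : (0 : Om).p12 = 0 := rfl
@[simp] lemma Om.zero_p21 : (0 : Om).p21 = 0 := rfl
@[simp] lemma Om.zero_p22 : (0 : Om).p22 = 0 := rfl
@[simp] lemma Om.zero_c : (0 : Om).c = 0 := rfl
@[simp] lemma Mo.mk_u1 (a b c d : ℚ) : (Mo.mk a b c d).u1 = a := rfl
@[simp] lemma Mo.mk_u2 (a b c d : ℚ) : (Mo.mk a b c d).u2 = b := rfl
@[simp] lemma Mo.mk_w1 (a b c d : ℚ) : (Mo.mk a b c d).w1 = c := rfl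
@[simp] lemma Mo.mk_w2 (a b c d : ℚ) : (Mo.mk a b c d).w2 = d := rfl
@[simp] lemma Mo.add_u1 (x y : Mo) : (x + y).u1 = x.u1 + y.u1 := rfl
@[simp] lemma Mo.add_u2 (x y : Mo) : (x + y).u2 = x.u2 + y.u2 := rfl
@[simp] lemma Mo.add_w1 (x y : Mo) : (x + y).w1 = x.w1 + y.w1 := rfl
@[simp] lemma Mo.add_w2 (x y : Mo) : (x + y).w2 = x.w2 + y.w2 := rfl
@[simp] lemma Mo.zero_u1 : (0 : Mo).u1 = 0 := rfl
@[simp] lemma Mo.zero_u2 : (0 : Mo).u2 = 0 := rfl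
@[simp] lemma Mo.zero_w1 : (0 : Mo).w1 = 0 := rfl
@[simp] lemma Mo.zero_w2 : (0 : Mo).w2 = 0 := rfl

instance : SMul A Om := ⟨fun r x => Om.mk (r.fst * x.p11) (r.fst * x.p12) (r.fst * x.p21) (r.fst * x.p22)
  (r.fst * x.c + r.snd.1 * x.p11 + r.snd.2.1 * x.p12 + r.snd.2.2.1 * x.p21 + r.snd.2.2.2 * x.p22)⟩
instance : SMul A Mo := ⟨fun r x => Mo.mk (r.fst * x.u1) (r.fst * x.u2)
  (r.fst * x.w1 + r.snd.1 * x.u1 + r.snd.2.1 * x.u2) (r.fst * x.w2 + r.snd.2.2.1 * x.u1 + r.snd.2.2.2 * x.u2)⟩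

lemma Om.smul_def (r : A) (x : Om) : r • x = Om.mk (r.fst * x.p11) (r.fst * x.p12) (r.fst * x.p21) (r.fst * x.p22)
  (r.fst * x.c + r.snd.1 * x.p11 + r.snd.2.1 * x.p12 + r.snd.2.2.1 * x.p21 + r.snd.2.2.2 * x.p22) := rfl
lemma Mo.smul_def (r : A) (x : Mo) : r • x = Mo.mk (r.fst * x.u1) (r.fst * x.u2)
  (r.fst * x.w1 + r.snd.1 * x.u1 + r.snd.2.1 * x.u2) (r.fst * x.w2 + r.snd.2.2.1 * x.u1 + r.snd.2.2.2 * x.u2) := rfl

instance : Module A Om where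
  one_smul x := by ext <;> simp [Om.smul_def]
  mul_smul r s x := by ext <;> simp [Om.smul_def] <;> ring
  smul_zero r := by ext <;> simp [Om.smul_def]
  smul_add r x y := by ext <;> simp [Om.smul_def] <;> ring
  add_smul r s x := by ext <;> simp [Om.smul_def] <;> ring
  zero_smul x := by ext <;> simp [Om.smul_def]

instance : Module A Mo where
  one_smul x := by ext <;> simp [Mo.smul_def]
  mul_smul r s x := by ext <;> simp [Mo.smul_def] <;> ring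
  smul_zero r := by ext <;> simp [Mo.smul_def]
  smul_add r x y := by ext <;> simp [Mo.smul_def] <;> ring
  add_smul r s x := by ext <;> simp [Mo.smul_def] <;> ring
  zero_smul x := by ext <;> simp [Mo.smul_def]

end Pool.Agent.H948C
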