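import Pool.Agent.H948C.Tens

set_option autoImplicit false

namespace Pool.Agent.H948C

open TensorProduct

lemma isUnit_iff' (r : A) : IsUnit r ↔ r.fst ≠ 0 := by
  rw [TrivSqZeroExt.isUnit_iff_isUnit_fst, isUnit_iff_ne_zero]

instance : IsLocalRing A := IsLocalRing.of_nonunits_add (by
  intro a b ha hb
  rw [mem_nonunits_iff, isUnit_iff', not_not] at *
  simp [ha, hb])

lemma mem_max (r : A) : r ∈ IsLocalRing.maximalIdeal A ↔ r.fst = 0 := by
  rw [IsLocalRing.mem_maximalIdeal, mem_nonunits_iff, isUnit_iff', not_not]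

instance : Module.Finite ℚ A := inferInstanceAs (Module.Finite ℚ (ℚ × ℚ × ℚ × ℚ × ℚ))

instance : IsArtinianRing A := IsArtinianRing.of_finite ℚ A

instance : Module.Finite A Mo := by
  classical
  refine ⟨⟨{e1, e2, g1, g2}, ?_⟩⟩
  rw [eq_top_iff]
  intro x _
  rw [Mo.expand x]
  refine Submodule.add_mem _ (Submodule.add_mem _ (Submodule.add_mem _ ?_ ?_) ?_) ?_
  all_goals exact Submodule.smul_mem _ _ (Submodule.subset_span (by simp))

lemma Om.expand (x : Om) : x = I x.p11 • Om.mk 1 0 0 0 0 + I x.p12 • Om.mk 0 1 0 0 0 + I x.p21 • Om.mk 0 0 1 0 0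
    + I x.p22 • Om.mk 0 0 0 1 0 + I x.c • Om.mk 0 0 0 0 1 := by
  ext <;> simp [Om.smul_def]

instance : Module.Finite A Om := by
  classical
  refine ⟨⟨{Om.mk 1 0 0 0 0, Om.mk 0 1 0 0 0, Om.mk 0 0 1 0 0, Om.mk 0 0 0 1 0, Om.mk 0 0 0 0 1}, ?_⟩⟩
  rw [eq_top_iff]
  intro x _
  rw [Om.expand x]
  refine Submodule.add_mem _ (Submodule.add_mem _ (Submodule.add_mem _ (Submodule.add_mem _ ?_ ?_) ?_) ?_) ?_
  all_goals exact Submodule.smul_mem _ _ (Submodule.subset_span (by simp))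

lemma ring_expand (s r : A) : s * r = s.fst • r + s.snd.1 • (E 1 0 0 0 * r) + s.snd.2.1 • (E 0 1 0 0 * r)
    + s.snd.2.2.1 • (E 0 0 1 0 * r) + s.snd.2.2.2 • (E 0 0 0 1 * r) := by
  ext <;> simp <;> ring

lemma E_mul (a b c d : ℚ) (s r : A) : E a b c d * (s * r) = s.fst • (E a b c d * r) := by
  ext <;> simp <;> ring

theorem injective_Om : Module.Injective A Om := by
  apply Module.Baer.injective
  intro J g
  let J' : Submodule ℚ A := J.restrictScalars ℚ
  have hJ : ∀ x : A, x ∈ J' ↔ x ∈ J := fun x => Iff.rfl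
  let lam : J' →ₗ[ℚ] ℚ :=
    { toFun := fun x => (g ⟨x.1, x.2⟩).c
      map_add' := fun x y => by
        have : (⟨(x + y).1, (x + y).2⟩ : J) = ⟨x.1, x.2⟩ + ⟨y.1, y.2⟩ := rfl
        rw [this, map_add, Om.add_c]
      map_smul' := fun a x => by
        have : (⟨(a • x).1, (a • x).2⟩ : J) = I a • ⟨x.1, x.2⟩ := by
          apply Subtype.ext
          change a • x.1 = I a * x.1
          ext <;> simp
        rw [this, map_smul]
        simp [Om.smul_def] }
  obtain ⟨h, hh⟩ := LinearMap.exists_extend lam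
  have hx : ∀ (x : A) (hx : x ∈ J), h x = (g ⟨x, hx⟩).c := by
    intro x hx
    have := LinearMap.congr_fun hh ⟨x, hx⟩
    exact this
  let G : A →ₗ[A] Om :=
    { toFun := fun r => Om.mk (h (E 1 0 0 0 * r)) (h (E 0 1 0 0 * r)) (h (E 0 0 1 0 * r)) (h (E 0 0 0 1 * r)) (h r)
      map_add' := fun r s => by ext <;> simp [mul_add]
      map_smul' := fun s r => by
        have e := ring_expand s r
        ext
        · simp only [smul_eq_mul, E_mul, map_smul, RingHom.id_apply, Om.smul_def, Om.mk_p11]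
        · simp only [smul_eq_mul, E_mul, map_smul, RingHom.id_apply, Om.smul_def, Om.mk_p12, Om.mk_p11]
        · simp only [smul_eq_mul, E_mul, map_smul, RingHom.id_apply, Om.smul_def, Om.mk_p21, Om.mk_p11]
        · simp only [smul_eq_mul, E_mul, map_smul, RingHom.id_apply, Om.smul_def, Om.mk_p22, Om.mk_p11]
        · simp only [Om.smul_def, Om.mk_c, RingHom.id_apply, Om.mk_p11, Om.mk_p12, Om.mk_p21, Om.mk_p22]
          rw [smul_eq_mul, e, map_add, map_add, map_add, map_add, map_smul, map_smul, map_smul, map_smul, map_smul]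
          simp only [smul_eq_mul] }
  refine ⟨G, fun x hxJ => ?_⟩
  have key : ∀ a b c d : ℚ, h (E a b c d * x) = (E a b c d • g ⟨x, hxJ⟩).c := by
    intro a b c d
    rw [hx _ (J.mul_mem_left _ hxJ), ← map_smul]
    rfl
  change Om.mk (h (E 1 0 0 0 * x)) (h (E 0 1 0 0 * x)) (h (E 0 0 1 0 * x)) (h (E 0 0 0 1 * x)) (h x) = _
  rw [key, key, key, key, hx x hxJ]
  ext <;> simp [Om.smul_def]

lemma socle : ∃ x₀ : Om, x₀ ≠ 0 ∧ ∀ x : Om, (∀ r ∈ IsLocalRing.maximalIdeal A, r • x = 0) ↔ ∃ a : A, x = a • x₀ := by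
  refine ⟨Om.mk 0 0 0 0 1, fun h => by simpa using congrArg Om.c h, fun x => ⟨fun h => ?_, ?_⟩⟩
  · have h11 := congrArg Om.c (h (E 1 0 0 0) (by rw [mem_max]; simp))
    have h12 := congrArg Om.c (h (E 0 1 0 0) (by rw [mem_max]; simp))
    have h21 := congrArg Om.c (h (E 0 0 1 0) (by rw [mem_max]; simp))
    have h22 := congrArg Om.c (h (E 0 0 0 1) (by rw [mem_max]; simp))
    simp [Om.smul_def] at h11 h12 h21 h22
    refine ⟨I x.c, ?_⟩
    ext <;> simp [Om.smul_def, h11, h12, h21, h22]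
  · rintro ⟨a, rfl⟩ r hr
    rw [mem_max] at hr
    ext <;> simp [Om.smul_def, hr]

lemma not_iso_ring : IsEmpty (Mo ≃ₗ[A] A) := by
  refine ⟨fun e => ?_⟩
  have h : ∀ m : Mo, m = e m • e.symm 1 := by
    intro m
    rw [← map_smul, smul_eq_mul, mul_one, LinearEquiv.symm_apply_apply]
  have h1 := h e1
  have h2 := h e2
  have a1 := congrArg Mo.u1 h1
  have a2 := congrArg Mo.u2 h1
  have b2 := congrArg Mo.u2 h2
  simp only [Mo.smul_def, Mo.mk_u1, Mo.mk_u2] at a1 a2 b2
  have c1 : (e e1).fst ≠ 0 := by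
    intro h0; rw [h0, zero_mul] at a1; exact one_ne_zero a1
  have c2 : (e.symm 1).u2 = 0 := by
    rcases mul_eq_zero.mp a2.symm with h0 | h0
    · exact absurd h0 c1
    · exact h0
  rw [c2, mul_zero] at b2
  exact one_ne_zero b2

lemma not_iso_Om : IsEmpty (Mo ≃ₗ[A] Om) := by
  refine ⟨fun e => ?_⟩
  have key : ∀ g : Mo, g.u1 = 0 → g.u2 = 0 → e g = Om.mk 0 0 0 0 (e g).c := by
    intro g hg1 hg2
    have k : ∀ a b c d : ℚ, E a b c d • e g = 0 := by
      intro a b c d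
      rw [← map_smul]
      have : E a b c d • g = 0 := by ext <;> simp [Mo.smul_def, hg1, hg2]
      rw [this, map_zero]
    have h11 := congrArg Om.c (k 1 0 0 0)
    have h12 := congrArg Om.c (k 0 1 0 0)
    have h21 := congrArg Om.c (k 0 0 1 0)
    have h22 := congrArg Om.c (k 0 0 0 1)
    simp [Om.smul_def] at h11 h12 h21 h22
    ext <;> simp [h11, h12, h21, h22]
  have k1 := key g1 rfl rfl
  have k2 := key g2 rfl rfl
  have h : e (I (e g2).c • g1) = e (I (e g1).c • g2) := by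
    rw [map_smul, map_smul, k1, k2]
    ext <;> simp [Om.smul_def, mul_comm]
  have h' := e.injective h
  have a1 := congrArg Mo.w1 h'
  have a2 := congrArg Mo.w2 h'
  simp [Mo.smul_def] at a1 a2
  have h3 : e g1 = 0 := by
    rw [k1]; ext <;> simp [← a2]
  have h4 : g1 = 0 := by
    apply e.injective; rw [h3, map_zero]
  have h5 := congrArg Mo.w1 h4
  simp at h5

theorem main : ∃ (R : Type) (_ : CommRing R) (_ : IsLocalRing R) (_ : IsArtinianRing R) (ω M : Type)
    (_ : AddCommGroup ω) (_ : Module R ω) (_ : AddCommGroup M) (_ : Module R M),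
    (Module.Finite R ω ∧ Module.Injective R ω ∧ ∃ x₀ : ω, x₀ ≠ 0 ∧
      ∀ x : ω, (∀ r ∈ IsLocalRing.maximalIdeal R, r • x = 0) ↔ ∃ a : R, x = a • x₀) ∧
    Module.Finite R M ∧ Nonempty (M ⊗[R] (M →ₗ[R] ω) ≃ₗ[R] ω) ∧
    IsEmpty (M ≃ₗ[R] R) ∧ IsEmpty (M ≃ₗ[R] ω) :=
  ⟨A, inferInstance, inferInstance, inferInstance, Om, Mo, inferInstance, inferInstance, inferInstance, inferInstance,
    ⟨inferInstance, injective_Om, socle⟩, inferInstance, ⟨evEquiv⟩, not_iso_ring, not_iso_Om⟩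

end Pool.Agent.H948C
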