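import Pool.Agent.H948C.Basic

set_option autoImplicit false

namespace Pool.Agent.H948C

open TensorProduct

def F (p1 p2 q1 q2 : ℚ) : Mo →ₗ[A] Om where
  toFun x := Om.mk (p1 * x.u1) (p1 * x.u2) (p2 * x.u1) (p2 * x.u2) (q1 * x.u1 + q2 * x.u2 + p1 * x.w1 + p2 * x.w2)
  map_add' x y := by ext <;> simp <;> ring
  map_smul' r x := by ext <;> simp [Om.smul_def, Mo.smul_def] <;> ring

lemma F_apply (p1 p2 q1 q2 : ℚ) (x : Mo) : F p1 p2 q1 q2 x =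
    Om.mk (p1 * x.u1) (p1 * x.u2) (p2 * x.u1) (p2 * x.u2) (q1 * x.u1 + q2 * x.u2 + p1 * x.w1 + p2 * x.w2) := rfl

abbrev E (a b c d : ℚ) : A := TrivSqZeroExt.inr (a, b, c, d)
abbrev I (a : ℚ) : A := TrivSqZeroExt.inl a

abbrev e1 : Mo := Mo.mk 1 0 0 0
abbrev e2 : Mo := Mo.mk 0 1 0 0
abbrev g1 : Mo := Mo.mk 0 0 1 0
abbrev g2 : Mo := Mo.mk 0 0 0 1

lemma Mo.expand (x : Mo) : x = I x.u1 • e1 + I x.u2 • e2 + I x.w1 • g1 + I x.w2 • g2 := by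
  ext <;> simp [Mo.smul_def]

lemma F_expand (a b c d : ℚ) : F a b c d = I a • F 1 0 0 0 + I b • F 0 1 0 0 + I c • F 0 0 1 0 + I d • F 0 0 0 1 := by
  apply LinearMap.ext; intro x
  simp only [LinearMap.add_apply, LinearMap.smul_apply]
  ext <;> simp [F_apply, Om.smul_def]
  ring

lemma exists_F (f : Mo →ₗ[A] Om) : ∃ a b c d, f = F a b c d := by
  have s11 : E 1 0 0 0 • e1 = g1 := by ext <;> simp [Mo.smul_def]
  have s12 : E 0 1 0 0 • e2 = g1 := by ext <;> simp [Mo.smul_def]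
  have s21 : E 0 0 1 0 • e1 = g2 := by ext <;> simp [Mo.smul_def]
  have s22 : E 0 0 0 1 • e2 = g2 := by ext <;> simp [Mo.smul_def]
  have z12 : E 0 1 0 0 • e1 = 0 := by ext <;> simp [Mo.smul_def]
  have z22 : E 0 0 0 1 • e1 = 0 := by ext <;> simp [Mo.smul_def]
  have z11 : E 1 0 0 0 • e2 = 0 := by ext <;> simp [Mo.smul_def]
  have z21 : E 0 0 1 0 • e2 = 0 := by ext <;> simp [Mo.smul_def]
  have a11 := congrArg f s11
  have a12 := congrArg f s12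
  have a21 := congrArg f s21
  have a22 := congrArg f s22
  have b12 := congrArg f z12
  have b22 := congrArg f z22
  have b11 := congrArg f z11
  have b21 := congrArg f z21
  rw [map_smul] at a11 a12 a21 a22
  rw [map_smul, map_zero] at b12 b22 b11 b21
  have c11 := congrArg Om.c a11
  have c12 := congrArg Om.c a12
  have c21 := congrArg Om.c a21
  have c22 := congrArg Om.c a22
  have d12 := congrArg Om.c b12
  have d22 := congrArg Om.c b22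
  have d11 := congrArg Om.c b11
  have d21 := congrArg Om.c b21
  simp [Om.smul_def] at c11 c12 c21 c22 d12 d22 d11 d21
  have h1 : f g1 = Om.mk 0 0 0 0 (f g1).c := by
    rw [← a11]; ext <;> simp [Om.smul_def]
  have h2 : f g2 = Om.mk 0 0 0 0 (f g2).c := by
    rw [← a21]; ext <;> simp [Om.smul_def]
  refine ⟨(f g1).c, (f g2).c, (f e1).c, (f e2).c, ?_⟩
  apply LinearMap.ext; intro x
  conv_lhs => rw [Mo.expand x]
  rw [map_add, map_add, map_add, map_smul, map_smul, map_smul, map_smul, h1, h2]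
  ext <;> simp [F_apply, Om.smul_def, c11, c12, c21, c22, d12, d22, d11, d21] <;> ring

abbrev T : Type := Mo ⊗[A] (Mo →ₗ[A] Om)

def z : T := e1 ⊗ₜ[A] F 0 0 1 0

lemma ten (r : A) (m m' : Mo) (f f' : Mo →ₗ[A] Om) (h : r • m = m') (h' : r • f = f') :
    m' ⊗ₜ[A] f = m ⊗ₜ[A] f' := by
  rw [← h, ← h', TensorProduct.smul_tmul]

lemma smF (r : A) (a b c d : ℚ) : r • F a b c d = F (r.fst * a) (r.fst * b)
    (r.fst * c + r.snd.1 * a + r.snd.2.2.1 * b) (r.fst * d + r.snd.2.1 * a + r.snd.2.2.2 * b) := by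
  apply LinearMap.ext; intro x
  simp only [LinearMap.smul_apply]
  ext <;> simp [F_apply, Om.smul_def] <;> ring

lemma F0 : F 0 0 0 0 = 0 := by
  apply LinearMap.ext; intro x
  ext <;> simp [F_apply]

lemma t_e2G2 : e2 ⊗ₜ[A] F 0 0 0 1 = z := by
  rw [← ten (E 0 1 0 0) e2 g1 (F 1 0 0 0) (F 0 0 0 1) (by ext <;> simp [Mo.smul_def]) (by rw [smF]; simp)]
  exact ten (E 1 0 0 0) e1 g1 (F 1 0 0 0) (F 0 0 1 0) (by ext <;> simp [Mo.smul_def]) (by rw [smF]; simp)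
lemma t_g1F1 : g1 ⊗ₜ[A] F 1 0 0 0 = z :=
  ten (E 1 0 0 0) e1 g1 (F 1 0 0 0) (F 0 0 1 0) (by ext <;> simp [Mo.smul_def]) (by rw [smF]; simp)
lemma t_g2F2 : g2 ⊗ₜ[A] F 0 1 0 0 = z :=
  ten (E 0 0 1 0) e1 g2 (F 0 1 0 0) (F 0 0 1 0) (by ext <;> simp [Mo.smul_def]) (by rw [smF]; simp)
lemma t_e1G2 : e1 ⊗ₜ[A] F 0 0 0 1 = 0 := by
  rw [← ten (E 0 1 0 0) e1 0 (F 1 0 0 0) (F 0 0 0 1) (by ext <;> simp [Mo.smul_def]) (by rw [smF]; simp),
    TensorProduct.zero_tmul]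
lemma t_e2G1 : e2 ⊗ₜ[A] F 0 0 1 0 = 0 := by
  rw [← ten (E 1 0 0 0) e2 0 (F 1 0 0 0) (F 0 0 1 0) (by ext <;> simp [Mo.smul_def]) (by rw [smF]; simp),
    TensorProduct.zero_tmul]
lemma t_g1F2 : g1 ⊗ₜ[A] F 0 1 0 0 = 0 := by
  rw [ten (E 1 0 0 0) e1 g1 (F 0 1 0 0) (F 0 0 0 0) (by ext <;> simp [Mo.smul_def]) (by rw [smF]; simp), F0,
    TensorProduct.tmul_zero]
lemma t_g2F1 : g2 ⊗ₜ[A] F 1 0 0 0 = 0 := by
  rw [ten (E 0 0 1 0) e1 g2 (F 1 0 0 0) (F 0 0 0 0) (by ext <;> simp [Mo.smul_def]) (by rw [smF]; simp), F0,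
    TensorProduct.tmul_zero]
lemma t_g1G1 : g1 ⊗ₜ[A] F 0 0 1 0 = 0 := by
  rw [ten (E 1 0 0 0) e1 g1 (F 0 0 1 0) (F 0 0 0 0) (by ext <;> simp [Mo.smul_def]) (by rw [smF]; simp), F0,
    TensorProduct.tmul_zero]
lemma t_g1G2 : g1 ⊗ₜ[A] F 0 0 0 1 = 0 := by
  rw [ten (E 1 0 0 0) e1 g1 (F 0 0 0 1) (F 0 0 0 0) (by ext <;> simp [Mo.smul_def]) (by rw [smF]; simp), F0,
    TensorProduct.tmul_zero]
lemma t_g2G1 : g2 ⊗ₜ[A] F 0 0 1 0 = 0 := by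
  rw [ten (E 0 0 1 0) e1 g2 (F 0 0 1 0) (F 0 0 0 0) (by ext <;> simp [Mo.smul_def]) (by rw [smF]; simp), F0,
    TensorProduct.tmul_zero]
lemma t_g2G2 : g2 ⊗ₜ[A] F 0 0 0 1 = 0 := by
  rw [ten (E 0 0 1 0) e1 g2 (F 0 0 0 1) (F 0 0 0 0) (by ext <;> simp [Mo.smul_def]) (by rw [smF]; simp), F0,
    TensorProduct.tmul_zero]

noncomputable def ev : T →ₗ[A] Om := TensorProduct.lift LinearMap.applyₗ

lemma ev_tmul (m : Mo) (f : Mo →ₗ[A] Om) : ev (m ⊗ₜ[A] f) = f m := by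
  simp [ev]

noncomputable def inv (x : Om) : T := I x.p11 • (e1 ⊗ₜ[A] F 1 0 0 0) + I x.p12 • (e2 ⊗ₜ[A] F 1 0 0 0) +
  I x.p21 • (e1 ⊗ₜ[A] F 0 1 0 0) + I x.p22 • (e2 ⊗ₜ[A] F 0 1 0 0) + I x.c • z

lemma inv_add (x y : Om) : inv (x + y) = inv x + inv y := by
  simp only [inv, Om.add_p11, Om.add_p12, Om.add_p21, Om.add_p22, Om.add_c, I, TrivSqZeroExt.inl_add]
  module

lemma ev_inv (x : Om) : ev (inv x) = x := by
  simp only [inv, map_add, map_smul, z, ev_tmul, F_apply]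
  ext <;> simp [Om.smul_def]

lemma ts (s : A) (m : Mo) (f : Mo →ₗ[A] Om) : m ⊗ₜ[A] (s • f) = s • (m ⊗ₜ[A] f) :=
  TensorProduct.tmul_smul s m f

lemma st (s : A) (m : Mo) (f : Mo →ₗ[A] Om) : (s • m) ⊗ₜ[A] f = s • (m ⊗ₜ[A] f) :=
  (TensorProduct.smul_tmul' s m f).symm

lemma sm (r s : A) (m : Mo) (f : Mo →ₗ[A] Om) : (r • m) ⊗ₜ[A] (s • f) = (r * s) • (m ⊗ₜ[A] f) := by
  rw [ts, st, smul_smul, mul_comm]

lemma inv_ev (t : T) : inv (ev t) = t := by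
  induction t using TensorProduct.induction_on with
  | zero => simp [inv]
  | add a b ha hb => rw [map_add, inv_add, ha, hb]
  | tmul m f =>
    obtain ⟨a, b, c, d, rfl⟩ := exists_F f
    rw [ev_tmul]
    conv_rhs => rw [Mo.expand m, F_expand a b c d]
    simp only [TensorProduct.add_tmul, TensorProduct.tmul_add, sm,
      t_e2G2, t_g1F1, t_g2F2, t_e1G2, t_e2G1, t_g1F2, t_g2F1, t_g1G1, t_g1G2, t_g2G1, t_g2G2, smul_zero, add_zero]
    simp only [inv, F_apply, Om.mk_p11, Om.mk_p12, Om.mk_p21, Om.mk_p22, Om.mk_c, I, TrivSqZeroExt.inl_add,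
      TrivSqZeroExt.inl_mul, z]
    module

noncomputable def evEquiv : T ≃ₗ[A] Om :=
  LinearEquiv.ofBijective ev ⟨Function.LeftInverse.injective inv_ev, Function.RightInverse.surjective ev_inv⟩

end Pool.Agent.H948C
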